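import Pool.Agent.Lib.MP_417c68_gt_P.B.Mean
import Pool.Agent.Lib.MP_417c68_gt_P.B.Ext

/-!
# MP_417c68_gt, project P, module C/Nc: the mean value of the determinants

`dt b v w` is the determinant of the family `(v_i), (w_j)` in the basis `b`.

PROOF of `mean_ric` (text, section 2 (b)).  Put `J x = mean Inn (fun k => dt b x (k w))`.
`J` is a multilinear map (`mean_add`,
`mean_smul`), so it is differentiable with derivative `y ↦ ∑ j, J (update x j (y j))` at `x`
(`ContinuousMultilinearMap.hasFDerivAt`, `linearDeriv`; finite dimension gives continuity).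
`inv_mean`: for `D = T a c` the function `t ↦ J (exp (t D) ∘ x)` is constant:
`dt b (exp (t D) ∘ x) (k w) = det (exp (t D)) * dt b x (exp (-t D) k w)`, `det = 1` (`inn_det`) and
`mean_left`; its derivative at `0` is `∑ j, J (update x j (D (x j)))` (`ex_deriv`).
Now apply it to `x = update v i₀ e_i`, `D = T z e_i` (`e` the orthonormal basis `S.ob`) and sum over
`i`: the term `j = i₀` gives `J (update v i₀ (Ric z))`.  The term `j ≠ i₀` gives
`∑ i, B_j (e_i) (A_j e_i)` with the alternating bilinear form
`B_j u u' = J (update (update v i₀ u) j u')` and `A_j e = T z e (v j)`.  `A_j` is symmetric: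
`T z e v = T v e z` (`jac`, `T z v = 0`), `ip (T z e v) f = ip (T v e z) f = ip (T z f v) e` (`ps`).
By `OB.swap` `∑ B (e_i) (A e_i) = ∑ B (A e_i) (e_i) = -∑ B (e_i) (A e_i)`, so it is `0`.
`mean_ric'`: `dt b v (k w) = det k * dt b (k⁻¹ v) w` with `det k = 1`, `mean_inv`, and exchange the
  two
parts of the family (`Equiv.sumComm`, `b.reindex`; a sign does not matter): `mean_ric`.
-/

noncomputable section

namespace Pool.Agent.MP417P

open Module

namespace LTS

variable {E : Type} [NormedAddCommGroup E] [NormedSpace ℝ E] [FiniteDimensional ℝ E] (S : LTS E)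
variable {ι κ : Type} [Fintype ι] [DecidableEq ι] [Fintype κ] [DecidableEq κ]

/-- the determinant of a family of vectors in two parts -/
def dt (b : Basis (ι ⊕ κ) ℝ E) (v : ι → E) (w : κ → E) : ℝ := b.det (Sum.elim v w)

omit [FiniteDimensional ℝ E] in
theorem dt_ne_zero {b : Basis (ι ⊕ κ) ℝ E} {v : ι → E} {w : κ → E} :
    dt b v w ≠ 0 ↔ LinearIndependent ℝ (Sum.elim v w) := by
  have h := Module.Basis.is_basis_iff_det b (v := Sum.elim v w)
  rw [isUnit_iff_ne_zero] at h
  refine ⟨fun h1 => (h.2 h1).1, fun h1 => h.1 ⟨h1, ?_⟩⟩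
  have : FiniteDimensional ℝ E := b.finiteDimensional_of_finite
  exact h1.span_eq_top_of_card_eq_finrank' (finrank_eq_card_basis b).symm

private theorem cont_dt {X : Type} [TopologicalSpace X] (b : Basis (ι ⊕ κ) ℝ E) {v : X → ι → E}
    {w : X → κ → E} (hv : ∀ i, Continuous fun x => v x i) (hw : ∀ j, Continuous fun x => w x j) :
    Continuous fun x => dt b (v x) (w x) := by
  unfold dt
  simp only [Basis.det_apply]
  refine Continuous.matrix_det (continuous_matrix fun i j => ?_)
  simp only [Basis.toMatrix_apply]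
  rcases j with j | j
  · exact (LinearMap.continuous_of_finiteDimensional (b.coord i)).comp (hv j)
  · exact (LinearMap.continuous_of_finiteDimensional (b.coord i)).comp (hw j)

theorem continuous_dt (b : Basis (ι ⊕ κ) ℝ E) (v : ι → E) (w : κ → E) :
    Continuous fun k : GLE E => dt b v (fun j => k.1 (w j)) :=
  cont_dt b (fun _ => continuous_const) fun j => continuous_apply_val (w j)

private theorem continuous_dt' (b : Basis (ι ⊕ κ) ℝ E) (v : ι → E) (w : κ → E) :
    Continuous fun k : GLE E => dt b (fun i => k.1 (v i)) w :=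
  cont_dt b (fun i => continuous_apply_val (v i)) fun _ => continuous_const

omit [FiniteDimensional ℝ E] in
private theorem dt_add (b : Basis (ι ⊕ κ) ℝ E) (v : ι → E) (w : κ → E) (i : ι) (x y : E) :
    dt b (Function.update v i (x + y)) w =
      dt b (Function.update v i x) w + dt b (Function.update v i y) w := by
  unfold dt
  rw [← Sum.update_elim_inl, ← Sum.update_elim_inl, ← Sum.update_elim_inl,
    AlternatingMap.map_update_add]

omit [FiniteDimensional ℝ E] in
private theorem dt_smul (b : Basis (ι ⊕ κ) ℝ E) (v : ι → E) (w : κ → E) (i : ι) (c : ℝ) (x : E) :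
    dt b (Function.update v i (c • x)) w = c * dt b (Function.update v i x) w := by
  unfold dt
  rw [← Sum.update_elim_inl, ← Sum.update_elim_inl, AlternatingMap.map_update_smul, smul_eq_mul]

omit [FiniteDimensional ℝ E] in
private theorem dt_swap (b : Basis (ι ⊕ κ) ℝ E) (v : ι → E) (w : κ → E) {i j : ι} (hij : i ≠ j)
    (x y : E) : dt b (Function.update (Function.update v i x) j y) w =
      -dt b (Function.update (Function.update v i y) j x) w := by
  unfold dt
  have hne : (Sum.inl i : ι ⊕ κ) ≠ Sum.inl j := fun h => hij (Sum.inl_injective h)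
  rw [← AlternatingMap.map_swap _ _ hne]
  congr 1
  funext s
  rcases s with s | s
  · by_cases h1 : s = i
    · subst h1
      rw [Function.comp_apply, Equiv.swap_apply_left]
      simp [Function.update_of_ne hij]
    · by_cases h2 : s = j
      · subst h2
        rw [Function.comp_apply, Equiv.swap_apply_right]
        simp [Function.update_of_ne hij]
      · rw [Function.comp_apply, Equiv.swap_apply_of_ne_of_ne (fun h => h1 (Sum.inl_injective h))
          fun h => h2 (Sum.inl_injective h)]
        simp [h1, h2]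
  · rw [Function.comp_apply, Equiv.swap_apply_of_ne_of_ne (by simp) (by simp)]
    rfl

omit [FiniteDimensional ℝ E] in
private theorem dt_det (b : Basis (ι ⊕ κ) ℝ E) (f : E →ₗ[ℝ] E) (v : ι → E) (w : κ → E) :
    dt b (fun i => f (v i)) (fun j => f (w j)) = LinearMap.det f * dt b v w := by
  unfold dt
  rw [← Basis.det_comp]
  congr 1
  funext s
  rcases s with s | s <;> rfl

private theorem mean_dt_add (b : Basis (ι ⊕ κ) ℝ E) (w : κ → E) (x : ι → E) (i : ι) (y z : E) :
    mean S.Inn (fun k => dt b (Function.update x i (y + z)) fun j => k.1 (w j)) =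
      mean S.Inn (fun k => dt b (Function.update x i y) fun j => k.1 (w j)) +
        mean S.Inn (fun k => dt b (Function.update x i z) fun j => k.1 (w j)) := by
  rw [← mean_add S.inn_compact (continuous_dt b _ w) (continuous_dt b _ w)]
  congr 1
  funext k
  exact dt_add b x (fun j => k.1 (w j)) i y z

private theorem mean_dt_smul (b : Basis (ι ⊕ κ) ℝ E) (w : κ → E) (x : ι → E) (i : ι) (c : ℝ)
    (y : E) : mean S.Inn (fun k => dt b (Function.update x i (c • y)) fun j => k.1 (w j)) =
      c * mean S.Inn (fun k => dt b (Function.update x i y) fun j => k.1 (w j)) := by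
  rw [← mean_smul S.inn_compact (continuous_dt b _ w)]
  congr 1
  funext k
  exact dt_smul b x (fun j => k.1 (w j)) i c y

/-- the mean value as a multilinear map -/
private def JJ (b : Basis (ι ⊕ κ) ℝ E) (w : κ → E) : MultilinearMap ℝ (fun _ : ι => E) ℝ :=
  MultilinearMap.mk' (fun x => mean S.Inn fun k => dt b x fun j => k.1 (w j))
    (fun x i y z => S.mean_dt_add b w x i y z) fun x i c y => S.mean_dt_smul b w x i c y

private theorem JJ_apply (b : Basis (ι ⊕ κ) ℝ E) (w : κ → E) (x : ι → E) :
    S.JJ b w x = mean S.Inn fun k => dt b x fun j => k.1 (w j) := rfl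

private theorem cont_multi (f : MultilinearMap ℝ (fun _ : ι => E) ℝ) : Continuous f := by
  classical
  let e := finBasis ℝ E
  have h : ∀ x : ι → E, f x = ∑ r : ι → Fin (finrank ℝ E), (∏ i, e.repr (x i) (r i)) *
      f (fun i => e (r i)) := by
    intro x
    have h1 : x = fun i => ∑ r, e.repr (x i) r • e r := by
      funext i
      exact (e.sum_repr (x i)).symm
    conv_lhs => rw [h1]
    rw [MultilinearMap.map_sum]
    refine Finset.sum_congr rfl fun r _ => ?_
    rw [MultilinearMap.map_smul_univ, smul_eq_mul]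
  have h2 : (f : (ι → E) → ℝ) = fun x => ∑ r : ι → Fin (finrank ℝ E),
      (∏ i, e.repr (x i) (r i)) * f (fun i => e (r i)) := funext h
  rw [h2]
  refine continuous_finsetSum _ fun r _ => Continuous.mul ?_ continuous_const
  refine continuous_finsetProd _ fun i _ => ?_
  exact (LinearMap.continuous_of_finiteDimensional (e.coord (r i))).comp (continuous_apply i)

private theorem JJ_inv (b : Basis (ι ⊕ κ) ℝ E) (w : κ → E) (x : ι → E) {g : GLE E}
    (hg : g ∈ S.Inn) : S.JJ b w (fun i => g.1 (x i)) = S.JJ b w x := by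
  rw [JJ_apply, JJ_apply, ← mean_left S.inn_compact (continuous_dt b x w) (S.Inn.inv_mem hg)]
  congr 1
  funext k
  have h := dt_det b (g.1 : E →ₗ[ℝ] E) x fun j => (g⁻¹ * k).1 (w j)
  rw [S.inn_det hg, one_mul] at h
  rw [← h]
  congr 1
  funext j
  show k.1 (w j) = (g.1 * (g⁻¹ * k).1) (w j)
  rw [← Units.val_mul, mul_inv_cancel_left]

theorem inv_mean (b : Basis (ι ⊕ κ) ℝ E) (x : ι → E) (w : κ → E) (a c : E) :
    ∑ j, mean S.Inn (fun k => dt b (Function.update x j (S.T a c (x j)))
      (fun j => k.1 (w j))) = 0 := by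
  let F : ContinuousMultilinearMap ℝ (fun _ : ι => E) ℝ := ⟨S.JJ b w, cont_multi (S.JJ b w)⟩
  have hF : ∀ y, F y = S.JJ b w y := fun _ => rfl
  have h1 : HasDerivAt (fun t : ℝ => fun i => (ex (t • S.D a c)).1 (x i))
      (fun i => S.D a c (x i)) 0 := by
    rw [hasDerivAt_pi]
    intro i
    exact ((ContinuousLinearMap.apply ℝ E (x i)).hasFDerivAt.comp_hasDerivAt (0 : ℝ)
      (ex_deriv (S.D a c)))
  have h0 : (fun i => (ex ((0 : ℝ) • S.D a c)).1 (x i)) = x := by
    funext i
    rw [zero_smul, ex_zero]
    rfl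
  have h2 : HasDerivAt (fun t : ℝ => F (fun i => (ex (t • S.D a c)).1 (x i)))
      (F.linearDeriv x fun i => S.D a c (x i)) 0 := by
    have h4 : HasFDerivAt F (F.linearDeriv x) ((fun t : ℝ => fun i =>
      (ex (t • S.D a c)).1 (x i)) 0) := by
      rw [show ((fun t : ℝ => fun i => (ex (t • S.D a c)).1 (x i)) 0) = x from h0]
      exact F.hasFDerivAt x
    exact h4.comp_hasDerivAt (0 : ℝ) h1
  have h5 : (fun t : ℝ => F (fun i => (ex (t • S.D a c)).1 (x i))) = fun _ => F x := by
    funext t
    rw [hF, hF]
    exact S.JJ_inv b w x (S.ex_smul_mem t a c)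
  rw [h5] at h2
  have h6 := h2.unique (hasDerivAt_const (0 : ℝ) (F x))
  rw [ContinuousMultilinearMap.linearDeriv_apply] at h6
  exact h6

theorem mean_ric (b : Basis (ι ⊕ κ) ℝ E) (v : ι → E) (w : κ → E) (i₀ : ι) (z : E)
    (hz : ∀ j, j ≠ i₀ → S.T z (v j) = 0) :
    mean S.Inn (fun k => dt b (Function.update v i₀ (S.Ric z)) (fun j => k.1 (w j))) = 0 := by
  have key : ∀ i, ∑ j, S.JJ b w (Function.update (Function.update v i₀ (S.ob i)) j
      (S.T z (S.ob i) (Function.update v i₀ (S.ob i) j))) = 0 := fun i =>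
    S.inv_mean b (Function.update v i₀ (S.ob i)) w z (S.ob i)
  have hsum : ∑ j, ∑ i, S.JJ b w (Function.update (Function.update v i₀ (S.ob i)) j
      (S.T z (S.ob i) (Function.update v i₀ (S.ob i) j))) = 0 := by
    rw [Finset.sum_comm]
    exact Finset.sum_eq_zero fun i _ => key i
  rw [← Finset.add_sum_erase _ _ (Finset.mem_univ i₀)] at hsum
  have hrest : ∑ j ∈ Finset.univ.erase i₀, ∑ i, S.JJ b w (Function.update
      (Function.update v i₀ (S.ob i)) j
      (S.T z (S.ob i) (Function.update v i₀ (S.ob i) j))) = 0 := by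
    refine Finset.sum_eq_zero fun j hj => ?_
    have hji : j ≠ i₀ := (Finset.mem_erase.1 hj).1
    -- the bilinear form
    let B : E →ₗ[ℝ] E →ₗ[ℝ] ℝ := LinearMap.mk₂ ℝ
      (fun u u' => S.JJ b w (Function.update (Function.update v i₀ u') j u))
      (fun u u₁ u' => MultilinearMap.map_update_add _ _ _ _ _)
      (fun c u u' => MultilinearMap.map_update_smul _ _ _ _ _)
      (fun u u' u₁ => by
        rw [Function.update_comm hji.symm, Function.update_comm hji.symm,
          Function.update_comm hji.symm]
        exact MultilinearMap.map_update_add _ _ _ _ _)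
      (fun c u u' => by
        rw [Function.update_comm hji.symm, Function.update_comm hji.symm]
        exact MultilinearMap.map_update_smul _ _ _ _ _)
    let A : E →ₗ[ℝ] E := (S.T (v j)).flip z
    have hA : ∀ x, A x = S.T (v j) x z := fun x => rfl
    have hA' : ∀ x, A x = S.T z x (v j) := by
      intro x
      have h1 := S.jac z x (v j)
      have h2 : S.T (v j) z x = 0 := by
        rw [S.T_symm (hz j hji), LinearMap.zero_apply]
      rw [h2, add_zero] at h1
      rw [hA, S.skew (v j) x z]
      exact (eq_neg_of_add_eq_zero_left h1).symm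
    have hsym : ∀ x ∈ (⊤ : Submodule ℝ E), ∀ y ∈ (⊤ : Submodule ℝ E),
        S.ip (A x) y = S.ip x (A y) := by
      intro x _ y _
      rw [hA, S.ps, S.symm x (A y), hA']
    have hsw := S.ob_ob.swap B (A := A) (A' := A) (fun _ _ => trivial) (fun _ _ => trivial) hsym
    have hB : ∀ u u', B u u' = -B u' u := by
      intro u u'
      show S.JJ b w _ = -S.JJ b w _
      rw [JJ_apply, JJ_apply, ← neg_one_mul, ← mean_smul S.inn_compact (continuous_dt b _ w)]
      congr 1
      funext k
      rw [dt_swap b v _ hji.symm, neg_one_mul]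
    have h3 : ∑ i, B (A (S.ob i)) (S.ob i) = -∑ i, B (A (S.ob i)) (S.ob i) := by
      conv_lhs => rw [hsw]
      rw [← Finset.sum_neg_distrib]
      exact Finset.sum_congr rfl fun i _ => hB _ _
    have h4 : ∑ i, B (A (S.ob i)) (S.ob i) = 0 := by linarith
    rw [← h4]
    refine Finset.sum_congr rfl fun i _ => ?_
    show _ = S.JJ b w (Function.update (Function.update v i₀ (S.ob i)) j (A (S.ob i)))
    rw [hA', Function.update_of_ne hji]
  rw [hrest, add_zero] at hsum
  have hR : S.Ric z = ∑ i, S.T z (S.ob i) (S.ob i) := S.ric_apply z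
  have h7 : S.JJ b w (Function.update v i₀ (S.Ric z)) = ∑ i, S.JJ b w (Function.update
      (Function.update v i₀ (S.ob i)) i₀
      (S.T z (S.ob i) (Function.update v i₀ (S.ob i) i₀))) := by
    rw [hR, MultilinearMap.map_update_sum]
    refine Finset.sum_congr rfl fun i _ => ?_
    rw [Function.update_idem, Function.update_self]
  rw [← JJ_apply, h7]
  exact hsum

/-- the same for the second part of the family -/
theorem mean_ric' (b : Basis (ι ⊕ κ) ℝ E) (v : ι → E) (w : κ → E) (j₀ : κ) (z : E)
    (hz : ∀ j, j ≠ j₀ → S.T z (w j) = 0) :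
    mean S.Inn (fun k => dt b v (fun j => k.1 (Function.update w j₀ (S.Ric z) j))) = 0 := by
  set w' := Function.update w j₀ (S.Ric z) with hw'
  have h1 : mean S.Inn (fun k => dt b v (fun j => k.1 (w' j))) =
      mean S.Inn (fun k => dt b (fun i => (k⁻¹).1 (v i)) w') := by
    refine mean_congr fun k hk => ?_
    have h := dt_det b (k.1 : E →ₗ[ℝ] E) (fun i => (k⁻¹).1 (v i)) w'
    rw [S.inn_det hk, one_mul] at h
    rw [← h]
    congr 1
    funext i
    show v i = (k.1 * (k⁻¹).1) (v i)
    rw [← Units.val_mul, mul_inv_cancel]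
    rfl
  rw [h1, mean_inv S.inn_compact (continuous_dt' b v w')]
  have h2 : ∀ k : GLE E, dt b (fun i => k.1 (v i)) w' =
      dt (b.reindex (Equiv.sumComm ι κ)) w' (fun i => k.1 (v i)) := by
    intro k
    unfold dt
    rw [Basis.det_reindex]
    congr 1
    funext s
    rcases s with s | s <;> rfl
  simp only [h2]
  exact S.mean_ric (b.reindex (Equiv.sumComm ι κ)) w v j₀ z hz

/-- `y + Ric z` may be replaced by `y` in the first part of the family -/
theorem mean_repl (b : Basis (ι ⊕ κ) ℝ E) (v : ι → E) (w : κ → E) (i₀ : ι) (y z : E)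
    (hz : ∀ j, j ≠ i₀ → S.T z (v j) = 0) :
    mean S.Inn (fun k => dt b (Function.update v i₀ (y + S.Ric z)) (fun j => k.1 (w j))) =
      mean S.Inn (fun k => dt b (Function.update v i₀ y) (fun j => k.1 (w j))) := by
  rw [S.mean_dt_add b w v i₀ y (S.Ric z), S.mean_ric b v w i₀ z hz, add_zero]

/-- `y + Ric z` may be replaced by `y` in the second part of the family -/
theorem mean_repl' (b : Basis (ι ⊕ κ) ℝ E) (v : ι → E) (w : κ → E) (j₀ : κ) (y z : E)
    (hz : ∀ j, j ≠ j₀ → S.T z (w j) = 0) :
    mean S.Inn (fun k => dt b v (fun j => k.1 (Function.update w j₀ (y + S.Ric z) j))) =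
      mean S.Inn (fun k => dt b v (fun j => k.1 (Function.update w j₀ y j))) := by
  have h1 : ∀ k : GLE E, dt b v (fun j => k.1 (Function.update w j₀ (y + S.Ric z) j)) =
      dt b v (fun j => k.1 (Function.update w j₀ y j)) +
        dt b v (fun j => k.1 (Function.update w j₀ (S.Ric z) j)) := by
    intro k
    have h2 : ∀ x, (Sum.elim v fun j => k.1 (Function.update w j₀ x j)) =
        Function.update (Sum.elim v fun j => k.1 (w j)) (Sum.inr j₀) (k.1 x) := by
      intro x
      rw [Sum.update_elim_inr]
      congr 1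
      funext j
      exact Function.apply_update (fun _ => k.1) w j₀ x j
    unfold dt
    rw [h2, h2, h2, map_add, AlternatingMap.map_update_add]
  simp only [h1]
  rw [mean_add S.inn_compact (continuous_dt b v _) (continuous_dt b v _),
    S.mean_ric' b v w j₀ z hz, add_zero]

end LTS

end Pool.Agent.MP417P
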