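import Pool.Agent.Lib.MP_417c68_gt_P.C.Nc

/-!
# MP_417c68_gt, project P, module C/Zc: centres of complementary subtriples

PROOFS.
* `nc_cen` (text, section 2 and (Z1)).  Suppose `0 ≠ Z ∈ cen V ∩ perp (cen ⊤)`.  Then `Z ∈ cz V`, so
  `Z = Ric z` with `z ∈ cz V` (`ric_surj`).  Let `v : ι → E` be a basis of `V` with `v i₀ = Z` and
  `w`
  a basis of `W`; `dt b v (k w) ≠ 0` for all `k ∈ Inn` (`Cp`: `V` and `k W` are complementary), so
  its
  mean value is not `0` (`mean_ne_zero`), but it is `0` by `mean_ric` (`update v i₀ Z = v`).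
* `nc`: the case `cen ⊤ = ⊥`.
* `z2` (text, section 8, (Z2)).  Let `π` be the orthogonal projection onto `cen ⊤`, `Z_i` a basis of
  `cen V`, `v'` a basis of `ss V`, `Y_j` a basis of `cen W`, `w'` a basis of `ss W`.
  `mean (dt b (Z, v') (k (Y, w'))) ≠ 0`.  Replace `Z_i` by `π Z_i` one after the other: the
  difference
  `Z_i - π Z_i ∈ perp (cen ⊤)` commutes with `V` and with `cen ⊤`, so it is `Ric z` with `z`
  commuting
  with all the other vectors and `mean_ric` says that the mean value does not change.  Then replace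
  `Y_j` by `π Y_j` (`mean_ric'`).  So for some `k ∈ Inn` the vectors `π Z_i, v', k π Y_j = π Y_j, k
  w'`
  (`inn_cen`) are a basis of `E`; `π Z, π Y ∈ cen ⊤` and `v', k w' ∈ perp (cen ⊤)` (`ctl_perp`,
  `ss_cen`, `im_perp`).  So `π Z, π Y` are a basis of `cen ⊤` and `v', k w'` one of `perp (cen ⊤)`.
-/

noncomputable section

namespace Pool.Agent.MP417P

open Module

namespace LTS

variable {E : Type} [NormedAddCommGroup E] [NormedSpace ℝ E] [FiniteDimensional ℝ E] (S : LTS E)

section fam

variable {ι κ : Type} [Fintype ι] [DecidableEq ι] [Fintype κ] [DecidableEq κ]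

omit [FiniteDimensional ℝ E] [Fintype ι] [DecidableEq ι] [Fintype κ] [DecidableEq κ] in
/-- bases of `V` and of `k W` are independent -/
private theorem indep {K : Subgroup (GLE E)} {V W : Submodule ℝ E} (h : Cp K V W) {v : ι → E}
    {w : κ → E} (hv : LinearIndependent ℝ v) (hw : LinearIndependent ℝ w) (hvV : ∀ i, v i ∈ V)
    (hwW : ∀ j, w j ∈ W) {k : GLE E} (hk : k ∈ K) :
    LinearIndependent ℝ (Sum.elim v fun j => k.1 (w j)) := by
  have hinj : Function.Injective (k.1 : E →ₗ[ℝ] E) := by
    intro x y hxy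
    have h1 : (k⁻¹ * k).1 x = (k⁻¹ * k).1 y := by
      show (k⁻¹).1 (k.1 x) = (k⁻¹).1 (k.1 y)
      exact congrArg (fun z => (k⁻¹).1 z) hxy
    rw [inv_mul_cancel] at h1
    exact h1
  have hkw : LinearIndependent ℝ fun j => k.1 (w j) := by
    have := hw.map' (k.1 : E →ₗ[ℝ] E) (LinearMap.ker_eq_bot.2 hinj)
    exact this
  refine hv.sum_type hkw ?_
  rw [Submodule.disjoint_def]
  intro x hx hx'
  have hx1 : x ∈ V := (Submodule.span_le.2 (by rintro _ ⟨i, rfl⟩; exact hvV i)) hx
  have hx2 : x ∈ im k W := (Submodule.span_le.2 (by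
    rintro _ ⟨j, rfl⟩
    exact mem_im.2 ⟨w j, hwW j, rfl⟩)) hx'
  obtain ⟨y, hy, hyx⟩ := mem_im.1 hx2
  exact h.disj k hk x hx1 y hy hyx.symm

/-- the mean value of the determinant of bases of `V` and `W` is not zero -/
private theorem mean_bas {V W : Submodule ℝ E} (h : Cp S.Inn V W) {v : ι → E}
    {w : κ → E} (hv : LinearIndependent ℝ v) (hw : LinearIndependent ℝ w) (hvV : ∀ i, v i ∈ V)
    (hwW : ∀ j, w j ∈ W) (hι : Fintype.card ι = finrank ℝ V) (hκ : Fintype.card κ = finrank ℝ W) :
    ∃ b : Basis (ι ⊕ κ) ℝ E, mean S.Inn (fun k => dt b v fun j => k.1 (w j)) ≠ 0 := by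
  have h1 := indep h hv hw hvV hwW S.Inn.one_mem
  have hcard : Fintype.card (ι ⊕ κ) = finrank ℝ E := by
    rw [Fintype.card_sum, hι, hκ, h.dim]
  classical
  by_cases hne : Nonempty (ι ⊕ κ)
  · let b := basisOfLinearIndependentOfCardEqFinrank h1 hcard
    refine ⟨b, mean_ne_zero S.inn_compact S.inn_conn (continuous_dt b v w) fun k hk => ?_⟩
    exact dt_ne_zero.2 (indep h hv hw hvV hwW hk)
  · have hempty : IsEmpty (ι ⊕ κ) := not_nonempty_iff.1 hne
    have h0 : finrank ℝ E = 0 := by
      rw [← hcard]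
      exact Fintype.card_eq_zero
    have hsub : Subsingleton E := finrank_zero_iff.1 h0
    let b : Basis (ι ⊕ κ) ℝ E := Basis.empty E
    refine ⟨b, mean_ne_zero S.inn_compact S.inn_conn (continuous_dt b v w) fun k hk => ?_⟩
    exact dt_ne_zero.2 (indep h hv hw hvV hwW hk)

end fam

theorem nc_cen {V W : Submodule ℝ E} (h : Cp S.Inn V W) :
    S.cen V ⊓ S.perp (S.cen ⊤) = ⊥ := by
  classical
  rw [eq_bot_iff]
  rintro Z ⟨hZ, hZp⟩
  rw [Submodule.mem_bot]
  by_contra hZ0
  obtain ⟨hZV, hZc⟩ := mem_cen.1 hZ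
  obtain ⟨z, hz, hzZ⟩ := S.ric_surj (V := V) (mem_cz.2 hZc) hZp
  -- a basis of `V` which contains `Z`
  have hs : LinearIndepOn ℝ id ({(⟨Z, hZV⟩ : V)} : Set V) :=
    LinearIndepOn.singleton (v := id) (show id (⟨Z, hZV⟩ : V) ≠ 0 from fun h0 =>
      hZ0 (congrArg Subtype.val h0))
  let B := Basis.extend hs
  have hfin : Finite (hs.extend (Set.subset_univ _)) := Module.Finite.finite_basis B
  let _ : Fintype (hs.extend (Set.subset_univ _)) := Fintype.ofFinite _
  let v : hs.extend (Set.subset_univ _) → E := fun i => (B i : V).1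
  have hv : LinearIndependent ℝ v := B.linearIndependent.map' V.subtype V.ker_subtype
  have hmem : (⟨Z, hZV⟩ : V) ∈ hs.extend (Set.subset_univ _) :=
    hs.subset_extend _ (Set.mem_singleton _)
  let i₀ : hs.extend (Set.subset_univ _) := ⟨⟨Z, hZV⟩, hmem⟩
  have hi₀ : v i₀ = Z := by
    show (B i₀ : V).1 = Z
    rw [Basis.extend_apply_self]
  let C := finBasis ℝ W
  let w : Fin (finrank ℝ W) → E := fun j => (C j : W).1
  have hw : LinearIndependent ℝ w := C.linearIndependent.map' W.subtype W.ker_subtype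
  obtain ⟨b, hb⟩ := S.mean_bas h hv hw (fun i => (B i).2) (fun j => (C j).2)
    (finrank_eq_card_basis B).symm (by rw [Fintype.card_fin])
  apply hb
  have h1 := S.mean_ric b v w i₀ z fun j _ => mem_cz.1 hz (v j) (B j).2
  have h2 : Function.update v i₀ (S.Ric z) = v := by
    rw [Function.update_eq_self_iff, hzZ]
    exact hi₀.symm
  rw [h2] at h1
  exact h1

theorem nc (hc : S.cen ⊤ = ⊥) {V W : Submodule ℝ E} (h : Cp S.Inn V W) : S.cen V = ⊥ := by
  have h1 := S.nc_cen h
  rw [hc, S.perp_bot, inf_top_eq] at h1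
  exact h1

theorem z2 {V W : Submodule ℝ E} (hV : S.Sub V) (hW : S.Sub W) (h : Cp S.Inn V W) :
    (∀ Z ∈ S.cen V, ∀ Y ∈ S.cen W, Z - Y ∈ S.perp (S.cen ⊤) → Z = 0 ∧ Y = 0) ∧
      finrank ℝ (S.cen V) + finrank ℝ (S.cen W) = finrank ℝ (S.cen ⊤) := by
  classical
  obtain ⟨P, hP1, hP2, hP3, hP4⟩ := S.exists_proj (S.cen ⊤)
  let bZ := finBasis ℝ (S.cen V)
  let bV := finBasis ℝ (S.ss V)
  let bY := finBasis ℝ (S.cen W)
  let bW := finBasis ℝ (S.ss W)
  let Zf : Fin (finrank ℝ (S.cen V)) → E := fun i => (bZ i).1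
  let v' : Fin (finrank ℝ (S.ss V)) → E := fun i => (bV i).1
  let Yf : Fin (finrank ℝ (S.cen W)) → E := fun i => (bY i).1
  let w' : Fin (finrank ℝ (S.ss W)) → E := fun i => (bW i).1
  have hZf : LinearIndependent ℝ Zf := bZ.linearIndependent.map' _ (Submodule.ker_subtype _)
  have hv' : LinearIndependent ℝ v' := bV.linearIndependent.map' _ (Submodule.ker_subtype _)
  have hYf : LinearIndependent ℝ Yf := bY.linearIndependent.map' _ (Submodule.ker_subtype _)
  have hw' : LinearIndependent ℝ w' := bW.linearIndependent.map' _ (Submodule.ker_subtype _)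
  have hcs : ∀ V : Submodule ℝ E, S.cen V ⊓ S.ss V = ⊥ := fun V => by
    have h1 := S.perp_inf (S.cen V)
    rw [eq_bot_iff] at h1 ⊢
    exact fun x hx => h1 ⟨hx.1, hx.2.2⟩
  have hfamV : LinearIndependent ℝ (Sum.elim Zf v') := by
    refine hZf.sum_type hv' (Submodule.disjoint_def.2 fun x hx hx' => ?_)
    have hx1 : x ∈ S.cen V := (Submodule.span_le.2 (by rintro _ ⟨i, rfl⟩; exact (bZ i).2)) hx
    have hx2 : x ∈ S.ss V := (Submodule.span_le.2 (by rintro _ ⟨i, rfl⟩; exact (bV i).2)) hx'
    have h3 : x ∈ S.cen V ⊓ S.ss V := ⟨hx1, hx2⟩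
    rw [hcs V] at h3
    exact (Submodule.mem_bot ℝ).1 h3
  have hfamW : LinearIndependent ℝ (Sum.elim Yf w') := by
    refine hYf.sum_type hw' (Submodule.disjoint_def.2 fun x hx hx' => ?_)
    have hx1 : x ∈ S.cen W := (Submodule.span_le.2 (by rintro _ ⟨i, rfl⟩; exact (bY i).2)) hx
    have hx2 : x ∈ S.ss W := (Submodule.span_le.2 (by rintro _ ⟨i, rfl⟩; exact (bW i).2)) hx'
    have h3 : x ∈ S.cen W ⊓ S.ss W := ⟨hx1, hx2⟩
    rw [hcs W] at h3
    exact (Submodule.mem_bot ℝ).1 h3
  have hmV : ∀ s, Sum.elim Zf v' s ∈ V := by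
    rintro (i | i)
    · exact (mem_cen.1 (bZ i).2).1
    · exact (bV i).2.1
  have hmW : ∀ s, Sum.elim Yf w' s ∈ W := by
    rintro (i | i)
    · exact (mem_cen.1 (bY i).2).1
    · exact (bW i).2.1
  obtain ⟨b, hb⟩ := S.mean_bas h hfamV hfamW hmV hmW
    (by rw [Fintype.card_sum, Fintype.card_fin, Fintype.card_fin, S.finrank_ss V])
    (by rw [Fintype.card_sum, Fintype.card_fin, Fintype.card_fin, S.finrank_ss W])
  -- the difference `x - P x` for a central `x` of `U`
  have hdiff : ∀ U : Submodule ℝ E, ∀ x ∈ S.cen U, ∃ z, (∀ y ∈ U, S.T z y = 0) ∧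
      (∀ c ∈ S.cen ⊤, S.T z c = 0) ∧ P x + S.Ric z = x := by
    intro U x hx
    obtain ⟨z, hz, hzx⟩ := S.ric_surj (V := U) (x := x - P x) (mem_cz.2 fun y hy => by
      rw [map_sub, LinearMap.sub_apply, (mem_cen.1 hx).2 y hy, (mem_cen.1 (hP1 x)).2 y trivial,
        sub_zero]) (hP4 x)
    exact ⟨z, mem_cz.1 hz, fun c hc => S.T_symm ((mem_cen.1 hc).2 z trivial), by
      rw [hzx, add_sub_cancel]⟩
  -- replace the `Z_i`
  have hstep : ∀ s : Finset (Fin (finrank ℝ (S.cen V))),
      mean S.Inn (fun k => dt b (Sum.elim (fun i => if i ∈ s then P (Zf i) else Zf i) v')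
        fun j => k.1 (Sum.elim Yf w' j)) ≠ 0 := by
    intro s
    induction s using Finset.induction_on with
    | empty => simpa using hb
    | insert i s hi ih =>
      obtain ⟨z, hz1, hz2, hz3⟩ := hdiff V (Zf i) (bZ i).2
      have h1 := S.mean_repl b (Sum.elim (fun i => if i ∈ s then P (Zf i) else Zf i) v')
        (Sum.elim Yf w') (Sum.inl i) (P (Zf i)) z (by
          rintro (j | j) _
          · show S.T z (if j ∈ s then P (Zf j) else Zf j) = 0
            split_ifs
            · exact hz2 _ (hP1 _)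
            · exact hz1 _ (mem_cen.1 (bZ j).2).1
          · exact hz1 _ (bV j).2.1)
      rw [hz3] at h1
      have h2 : Function.update (Sum.elim (fun i => if i ∈ s then P (Zf i) else Zf i) v')
          (Sum.inl i) (Zf i) = Sum.elim (fun i => if i ∈ s then P (Zf i) else Zf i) v' := by
        rw [Function.update_eq_self_iff]
        show Zf i = if i ∈ s then P (Zf i) else Zf i
        rw [if_neg hi]
      have h3 : Function.update (Sum.elim (fun i => if i ∈ s then P (Zf i) else Zf i) v')
          (Sum.inl i) (P (Zf i)) =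
          Sum.elim (fun j => if j ∈ insert i s then P (Zf j) else Zf j) v' := by
        rw [Sum.update_elim_inl]
        congr 1
        funext j
        by_cases hj : j = i
        · subst hj
          rw [Function.update_self, if_pos (Finset.mem_insert_self _ _)]
        · rw [Function.update_of_ne hj]
          simp [Finset.mem_insert, hj]
      rw [h2, h3] at h1
      rw [← h1]
      exact ih
  have hstepA := hstep Finset.univ
  simp only [Finset.mem_univ, if_true] at hstepA
  -- replace the `Y_j`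
  have hstep' : ∀ s : Finset (Fin (finrank ℝ (S.cen W))),
      mean S.Inn (fun k => dt b (Sum.elim (fun i => P (Zf i)) v')
        fun j => k.1 (Sum.elim (fun i => if i ∈ s then P (Yf i) else Yf i) w' j)) ≠ 0 := by
    intro s
    induction s using Finset.induction_on with
    | empty => simpa using hstepA
    | insert i s hi ih =>
      obtain ⟨z, hz1, hz2, hz3⟩ := hdiff W (Yf i) (bY i).2
      have h1 := S.mean_repl' b (Sum.elim (fun i => P (Zf i)) v')
        (Sum.elim (fun i => if i ∈ s then P (Yf i) else Yf i) w') (Sum.inl i) (P (Yf i)) z (by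
          rintro (j | j) _
          · show S.T z (if j ∈ s then P (Yf j) else Yf j) = 0
            split_ifs
            · exact hz2 _ (hP1 _)
            · exact hz1 _ (mem_cen.1 (bY j).2).1
          · exact hz1 _ (bW j).2.1)
      rw [hz3] at h1
      have h2 : Function.update (Sum.elim (fun i => if i ∈ s then P (Yf i) else Yf i) w')
          (Sum.inl i) (Yf i) = Sum.elim (fun i => if i ∈ s then P (Yf i) else Yf i) w' := by
        rw [Function.update_eq_self_iff]
        show Yf i = if i ∈ s then P (Yf i) else Yf i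
        rw [if_neg hi]
      have h3 : Function.update (Sum.elim (fun i => if i ∈ s then P (Yf i) else Yf i) w')
          (Sum.inl i) (P (Yf i)) =
          Sum.elim (fun j => if j ∈ insert i s then P (Yf j) else Yf j) w' := by
        rw [Sum.update_elim_inl]
        congr 1
        funext j
        by_cases hj : j = i
        · subst hj
          rw [Function.update_self, if_pos (Finset.mem_insert_self _ _)]
        · rw [Function.update_of_ne hj]
          simp [Finset.mem_insert, hj]
      rw [h2, h3] at h1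
      rw [← h1]
      exact ih
  have hstepB := hstep' Finset.univ
  simp only [Finset.mem_univ, if_true] at hstepB
  obtain ⟨k, hk, hk0⟩ := exists_of_mean hstepB
  have hli := dt_ne_zero.1 hk0
  -- the two parts of the family
  have hcc : LinearIndependent ℝ (Sum.elim (fun i => P (Zf i)) fun i => P (Yf i)) := by
    have h1 := hli.comp (Sum.elim (fun i => Sum.inl (Sum.inl i)) fun j => Sum.inr (Sum.inl j))
      (by
        rintro (i | i) (j | j) hij
        · exact congrArg Sum.inl (Sum.inl_injective (Sum.inl_injective hij))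
        · exact absurd hij (by simp)
        · exact absurd hij (by simp)
        · exact congrArg Sum.inr (Sum.inl_injective (Sum.inr_injective hij)))
    convert h1 using 1
    funext s
    rcases s with i | j
    · rfl
    · show P (Yf j) = k.1 (P (Yf j))
      exact (inn_cen hk (hP1 _)).symm
  have hss : LinearIndependent ℝ (Sum.elim v' fun j => k.1 (w' j)) := by
    have h1 := hli.comp (Sum.elim (fun i => Sum.inl (Sum.inr i)) fun j => Sum.inr (Sum.inr j))
      (by
        rintro (i | i) (j | j) hij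
        · exact congrArg Sum.inl (Sum.inr_injective (Sum.inl_injective hij))
        · exact absurd hij (by simp)
        · exact absurd hij (by simp)
        · exact congrArg Sum.inr (Sum.inr_injective (Sum.inr_injective hij)))
    convert h1 using 1
    funext s
    rcases s with i | j <;> rfl
  have hperpk : im k (S.perp (S.cen ⊤)) = S.perp (S.cen ⊤) := by
    have h1 := S.im_perp (S.inn_aut k hk) (S.cen ⊤)
    rw [← S.im_cen (S.inn_aut k hk), im_top] at h1
    exact h1.symm
  have hle1 : finrank ℝ (S.cen V) + finrank ℝ (S.cen W) ≤ finrank ℝ (S.cen ⊤) := by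
    let g : Fin (finrank ℝ (S.cen V)) ⊕ Fin (finrank ℝ (S.cen W)) → S.cen ⊤ :=
      Sum.elim (fun i => ⟨P (Zf i), hP1 _⟩) fun i => ⟨P (Yf i), hP1 _⟩
    have hg : LinearIndependent ℝ g := by
      refine LinearIndependent.of_comp (S.cen ⊤).subtype ?_
      convert hcc using 1
      funext s
      rcases s with i | j <;> rfl
    have h1 := hg.fintype_card_le_finrank
    rwa [Fintype.card_sum, Fintype.card_fin, Fintype.card_fin] at h1
  have hle2 : finrank ℝ (S.ss V) + finrank ℝ (S.ss W) ≤ finrank ℝ (S.perp (S.cen ⊤)) := by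
    have hv1 : ∀ i, v' i ∈ S.perp (S.cen ⊤) := fun i =>
      S.ctl_perp (S.ss_sub hV) (S.ss_cen V) (bV i).2
    have hw1 : ∀ i, k.1 (w' i) ∈ S.perp (S.cen ⊤) := fun i => by
      rw [← hperpk]
      exact mem_im.2 ⟨w' i, S.ctl_perp (S.ss_sub hW) (S.ss_cen W) (bW i).2, rfl⟩
    let g : Fin (finrank ℝ (S.ss V)) ⊕ Fin (finrank ℝ (S.ss W)) → S.perp (S.cen ⊤) :=
      Sum.elim (fun i => ⟨v' i, hv1 i⟩) fun i => ⟨k.1 (w' i), hw1 i⟩
    have hg : LinearIndependent ℝ g := by
      refine LinearIndependent.of_comp (S.perp (S.cen ⊤)).subtype ?_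
      convert hss using 1
      funext s
      rcases s with i | j <;> rfl
    have h1 := hg.fintype_card_le_finrank
    rwa [Fintype.card_sum, Fintype.card_fin, Fintype.card_fin] at h1
  have hd1 := S.finrank_ss V
  have hd2 := S.finrank_ss W
  have hd3 := S.finrank_perp (S.cen ⊤)
  have hd4 := h.dim
  refine ⟨fun Z hZ Y hY hZY => ?_, by omega⟩
  have hPZY : P Z = P Y := by
    have h1 : P (Z - Y) = 0 := by
      refine S.ip_zero ?_
      rw [hP3, hP2 _ (hP1 _), S.symm]
      have h2 := mem_perp.1 hZY (P (Z - Y)) (hP1 _)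
      rw [S.symm]
      exact h2
    rw [map_sub, sub_eq_zero] at h1
    exact h1
  have hZs : Z = ∑ i, bZ.repr ⟨Z, hZ⟩ i • Zf i := by
    have h1 := congrArg (S.cen V).subtype (bZ.sum_repr ⟨Z, hZ⟩)
    rw [map_sum] at h1
    simpa using h1.symm
  have hYs : Y = ∑ i, bY.repr ⟨Y, hY⟩ i • Yf i := by
    have h1 := congrArg (S.cen W).subtype (bY.sum_repr ⟨Y, hY⟩)
    rw [map_sum] at h1
    simpa using h1.symm
  have hlin := Fintype.linearIndependent_iff.1 hcc
    (Sum.elim (fun i => bZ.repr ⟨Z, hZ⟩ i) fun i => -bY.repr ⟨Y, hY⟩ i) (by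
      rw [Fintype.sum_sum_type]
      simp only [Sum.elim_inl, Sum.elim_inr, neg_smul, Finset.sum_neg_distrib]
      rw [← sub_eq_add_neg, sub_eq_zero]
      have h1 : P Z = ∑ i, bZ.repr ⟨Z, hZ⟩ i • P (Zf i) := by
        conv_lhs => rw [hZs]
        rw [map_sum]
        exact Finset.sum_congr rfl fun i _ => by rw [map_smul]
      have h2 : P Y = ∑ i, bY.repr ⟨Y, hY⟩ i • P (Yf i) := by
        conv_lhs => rw [hYs]
        rw [map_sum]
        exact Finset.sum_congr rfl fun i _ => by rw [map_smul]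
      rw [← h1, ← h2]
      exact hPZY)
  constructor
  · rw [hZs]
    refine Finset.sum_eq_zero fun i _ => ?_
    have h1 := hlin (Sum.inl i)
    rw [Sum.elim_inl] at h1
    rw [h1, zero_smul]
  · rw [hYs]
    refine Finset.sum_eq_zero fun i _ => ?_
    have h1 := hlin (Sum.inr i)
    rw [Sum.elim_inr, neg_eq_zero] at h1
    rw [h1, zero_smul]

end LTS

end Pool.Agent.MP417P
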